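import Pool.Agent.K1H71.NX.Expl
import Pool.Agent.K1H71.NX.T_BB
import Pool.Agent.K1H71.NX.T_NVS
import Pool.Agent.K1H71.NX.T_WAR

/-!
# Many exceptions to the n-term abc inequality for every exponent below 2n - 5

Browkin and Brzezinski conjecture that for every `M > 2 n - 5` only finitely many admissible
`n`-tuples violate `max |x_j| ≤ rad (x_1 ⋯ x_n) ^ M`. For every exponent `M < 2 n - 5` and every
constant `K` the number of the tuples with radical at most `X` which violate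
`max |x_j| ≤ K rad (x_1 ⋯ x_n) ^ M` is at least `c X ^ min (2 / 3, 1 - M / (2 n - 5))`, and
correspondingly for the tuples of height at most `B`.
-/

set_option autoImplicit false

namespace Pool.Agent.Results.MP_a95293_nt.BelowTheThreshold

open Finset

/-- the tuples of the problem: coprime integers with sum zero and no vanishing proper subsum -/
def Admissible {n : ℕ} (x : Fin n → ℤ) : Prop :=
  univ.gcd x = 1 ∧ ∑ i, x i = 0 ∧
    ∀ I : Finset (Fin n), I.Nonempty → I ≠ univ → ∑ i ∈ I, x i ≠ 0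

/-- `rad (x_1 ⋯ x_n)`: the product of the primes that divide the product of the coordinates -/
def rad {n : ℕ} (x : Fin n → ℤ) : ℕ := ∏ p ∈ (∏ i, x i).natAbs.primeFactors, p

/-- `max |x_i|` -/
def height {n : ℕ} (x : Fin n → ℤ) : ℕ := univ.sup fun i => (x i).natAbs

/-- the admissible tuples with `rad ≤ X` and `K rad ^ M < max |x_i| ≤ X ^ (2 n)` -/
def ByRadical (n : ℕ) (M K X : ℝ) : Set (Fin n → ℤ) :=
  {x | Admissible x ∧ (rad x : ℝ) ≤ X ∧ K * (rad x : ℝ) ^ M < height x ∧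
    (height x : ℝ) ≤ X ^ (2 * n)}

/-- the admissible tuples with `K rad ^ M < max |x_i| ≤ B` -/
def ByHeight (n : ℕ) (M K B : ℝ) : Set (Fin n → ℤ) :=
  {x | Admissible x ∧ K * (rad x : ℝ) ^ M < height x ∧ (height x : ℝ) ≤ B}

open Pool.Agent.K1H71.NX (LB Adm)
open Pool.Agent.K1H71.NX.Main

theorem le_height {n : ℕ} (x : Fin n → ℤ) (i : Fin n) : |(x i : ℝ)| ≤ height x := by
  have h : (x i).natAbs ≤ height x := le_sup (f := fun i => (x i).natAbs) (mem_univ i)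
  rw [← Int.cast_abs, ← Nat.cast_natAbs]
  exact_mod_cast h

theorem height_le {n : ℕ} {x : Fin n → ℤ} {B : ℝ} (hB : 0 ≤ B) (h : ∀ i, |(x i : ℝ)| ≤ B) :
    (height x : ℝ) ≤ B := by
  have h1 : height x ≤ ⌊B⌋₊ := Finset.sup_le fun i _ => Nat.le_floor (by
    have := h i
    rw [← Int.cast_abs, ← Nat.cast_natAbs] at this
    exact_mod_cast this)
  exact (Nat.cast_le.2 h1).trans (Nat.floor_le hB)

theorem finite_box (n : ℕ) (B : ℝ) : {x : Fin n → ℤ | (height x : ℝ) ≤ B}.Finite := by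
  refine Set.Finite.subset (Finset.finite_toSet
    (Fintype.piFinset fun _ : Fin n => Icc (-(⌊B⌋₊ : ℤ)) ⌊B⌋₊)) ?_
  intro x hx
  have hx' : (height x : ℝ) ≤ B := hx
  rw [mem_coe, Fintype.mem_piFinset]
  intro j
  have h3 : (x j).natAbs ≤ ⌊B⌋₊ := by
    have h4 : (x j).natAbs ≤ height x := le_sup (f := fun i => (x i).natAbs) (mem_univ j)
    exact h4.trans (Nat.le_floor hx')
  rw [mem_Icc]
  omega

theorem card_le {n : ℕ} {S : Set (Fin n → ℤ)} {B : ℝ} (hS : ∀ x ∈ S, (height x : ℝ) ≤ B)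
    {T : Finset (Fin n → ℤ)} (hT : ∀ x ∈ T, x ∈ S) : (T.card : ℝ) ≤ (S.ncard : ℝ) := by
  have hfin : S.Finite := (finite_box n B).subset hS
  have h := Set.ncard_le_ncard (s := (T : Set (Fin n → ℤ))) (t := S) (fun x hx => hT x hx) hfin
  rw [Set.ncard_coe_finset] at h
  exact_mod_cast h

theorem byRadical_card {n : ℕ} {M K X : ℝ} (hX : 0 ≤ X) {T : Finset (Fin n → ℤ)}
    (hT : ∀ x ∈ T, Pool.Agent.K1H71.NX.Good M K X (X ^ ((2 * n : ℕ) : ℝ)) x) :
    (T.card : ℝ) ≤ ((ByRadical n M K X).ncard : ℝ) := by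
  refine card_le (B := X ^ (2 * n)) (fun x hx => hx.2.2.2) fun x hx => ?_
  obtain ⟨h1, h2, ⟨i, hi⟩, h4⟩ := hT x hx
  refine ⟨h1, h2, lt_of_lt_of_le hi (le_height x i), height_le (by positivity) fun j => ?_⟩
  rw [← Real.rpow_natCast]
  exact h4 j

/-- **Many exceptions for every exponent below `2 n - 5`.** Let `n ≥ 3`, `K > 0`. For all
`0 ≤ M < 2 n - 5` at least `c X ^ min (2 / 3, 1 - M / (2 n - 5))` admissible `n`-tuples with
radical at most `X` satisfy `K rad ^ M < max |x_i| ≤ X ^ (2 n)`, and for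
`(2 n - 5) / 3 ≤ M < 2 n - 5` at least `c B ^ (1 / M - 1 / (2 n - 5))` admissible `n`-tuples satisfy
`K rad ^ M < max |x_i| ≤ B`. -/
theorem result (n : ℕ) (hn : 3 ≤ n) (K : ℝ) (hK : 0 < K) :
    (∀ M : ℝ, 0 ≤ M → M < 2 * (n : ℝ) - 5 →
      ∃ c : ℝ, 0 < c ∧ ∃ X₀ : ℝ, ∀ X : ℝ, X₀ ≤ X →
        c * X ^ (min (2 / 3) (1 - M / (2 * (n : ℝ) - 5))) ≤ ((ByRadical n M K X).ncard : ℝ)) ∧
    ∀ M : ℝ, (2 * (n : ℝ) - 5) / 3 ≤ M → M < 2 * (n : ℝ) - 5 →
      ∃ c : ℝ, 0 < c ∧ ∃ B₀ : ℝ, ∀ B : ℝ, B₀ ≤ B →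
        c * B ^ (1 / M - 1 / (2 * (n : ℝ) - 5)) ≤ ((ByHeight n M K B).ncard : ℝ) := by
  have hB := Pool.Agent.K1H71.NX.t_BB Pool.Agent.K1H71.NX.t_WAR Pool.Agent.K1H71.NX.t_NVS
  refine ⟨?_, ?_⟩
  · intro M hM hMn
    obtain ⟨r, rfl⟩ : ∃ r, n = r + 3 := ⟨n - 3, by omega⟩
    have e1 : 2 * (((r + 3 : ℕ) : ℝ)) - 5 = 2 * (r : ℝ) + 1 := by push_cast; ring
    rw [e1] at hMn ⊢
    have h1 := Pool.Agent.K1H71.NX.Fam.fam hB r M hM hMn
    obtain ⟨c, X₀, hc, hX₀⟩ := count1 h1 (A' := ((2 * (r + 3) : ℕ) : ℝ)) (by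
      push_cast
      have : (0 : ℝ) ≤ r := Nat.cast_nonneg r
      exact max_lt (by linarith) (by linarith)) hK
    refine ⟨c, hc, max X₀ 0, fun X hX => ?_⟩
    obtain ⟨T, hT1, hT2⟩ := hX₀ X ((le_max_left _ _).trans hX)
    exact hT2.trans (byRadical_card ((le_max_right _ _).trans hX) hT1)
  · intro M hM hMn
    obtain ⟨r, rfl⟩ : ∃ r, n = r + 3 := ⟨n - 3, by omega⟩
    have e1 : 2 * (((r + 3 : ℕ) : ℝ)) - 5 = 2 * (r : ℝ) + 1 := by push_cast; ring
    rw [e1] at hMn hM ⊢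
    have hr0 : (0 : ℝ) ≤ r := Nat.cast_nonneg r
    have hM0 : 0 < M := by
      refine lt_of_lt_of_le ?_ hM
      positivity
    have h1 := Pool.Agent.K1H71.NX.Fam.fam hB r M hM0.le hMn
    rw [max_eq_left hM] at h1
    have e2 : min (2 / 3) (1 - M / (2 * (r : ℝ) + 1)) = 1 - M / (2 * (r : ℝ) + 1) := by
      refine min_eq_right ?_
      have : 1 / 3 ≤ M / (2 * (r : ℝ) + 1) := by
        rw [le_div_iff₀ (by positivity)]
        linarith
      linarith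
    rw [e2] at h1
    obtain ⟨c, B₀, hc, hB₀⟩ := count_ht h1 hM0 hK
    refine ⟨c, hc, max B₀ 0, fun B hB => ?_⟩
    obtain ⟨T, hT1, hT2⟩ := hB₀ B ((le_max_left _ _).trans hB)
    have e3 : (1 - M / (2 * (r : ℝ) + 1)) / M = 1 / M - 1 / (2 * (r : ℝ) + 1) := by
      field_simp
    rw [e3] at hT2
    refine hT2.trans (card_le (B := B) (fun x hx => hx.2.2) fun x hx => ?_)
    obtain ⟨k1, ⟨i, hi⟩, k3⟩ := hT1 x hx
    exact ⟨k1, lt_of_lt_of_le hi (le_height x i), height_le ((le_max_right _ _).trans hB) k3⟩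

end Pool.Agent.Results.MP_a95293_nt.BelowTheThreshold
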