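import Pool.Agent.K1H37.NX2.Pos3
import Pool.Agent.K1H68.NX3.Pos4
import Pool.Agent.K1H71.NX.Main3
import Pool.Agent.K1H71.NX.T_BB
import Pool.Agent.K1H71.NX.T_MONO
import Pool.Agent.K1H71.NX.T_NVS
import Pool.Agent.K1H71.NX.T_WAR

/-!
# The exponent of the number of exceptions to the n-term abc inequality is at least `1 - O(1 / n)`

For a fixed exponent `M` and any constant `K` the number of the admissible `n`-tuples with radical at
most `X` which violate `max |x_j| ≤ K rad (x_1 ⋯ x_n) ^ M` is at least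
`X ^ (1 - (1 + θ) ^ 2 / n - δ)`, where `θ = max 1 √(M / 2)`, as soon as `n ≥ (1 + θ) ^ 2`. So an upper
bound `X ^ (1 - s + o(1))` for this number can hold only with a saving `s` of the order `1 / n` at
most.

The tuples come from the identity
`s ^ (2 r + 1) = a_0 ^ (2 r + 1) + ∑_(i < r) e_i (s a_0) ^ i b ^ (2 r + 1 - 2 i) +
∑_(j ≤ h) e_r (s a_0) ^ r a_j` for `b = a_1 + ⋯ + a_h`, `s = a_0 + b`, with positive integers `e_i`
(Waring's identity for the difference of two odd powers, in which the sum `b` is expanded in one term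
only). It has `r + h + 2` terms, all positive for positive `a_j`, so there is no vanishing subsum, and
they are products of powers of `h + 3` numbers, all but two of which can be chosen freely. For small
`n` or `M` we also use the identity
`s ^ m = a_0 ^ m + ∑_(i < m) ∑_(j ≥ 1) a_j a_0 ^ i s ^ (m - 1 - i)`, `s = a_0 + ⋯ + a_(N - 2)`.
-/

set_option autoImplicit false

namespace Pool.Agent.Results.MP_a95293_nt.SavingOneOverN

open Finset

/-- the tuples of the problem: coprime integers with sum zero and no vanishing proper subsum -/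
def Admissible {n : ℕ} (x : Fin n → ℤ) : Prop :=
  univ.gcd x = 1 ∧ ∑ i, x i = 0 ∧
    ∀ I : Finset (Fin n), I.Nonempty → I ≠ univ → ∑ i ∈ I, x i ≠ 0

/-- `rad (x_1 ⋯ x_n)`: the product of the primes that divide the product of the coordinates -/
def rad {n : ℕ} (x : Fin n → ℤ) : ℕ := ∏ p ∈ (∏ i, x i).natAbs.primeFactors, p

/-- `max |x_i|` -/
def height {n : ℕ} (x : Fin n → ℤ) : ℕ := univ.sup fun i => (x i).natAbs

/-- the admissible tuples with `rad ≤ X` and `K rad ^ M < max |x_i| ≤ X ^ (2 n)` -/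
def ByRadical (n : ℕ) (M K X : ℝ) : Set (Fin n → ℤ) :=
  {x | Admissible x ∧ (rad x : ℝ) ≤ X ∧ K * (rad x : ℝ) ^ M < height x ∧
    (height x : ℝ) ≤ X ^ (2 * n)}

/-- the admissible tuples with `K rad ^ M < max |x_i| ≤ B` -/
def ByHeight (n : ℕ) (M K B : ℝ) : Set (Fin n → ℤ) :=
  {x | Admissible x ∧ K * (rad x : ℝ) ^ M < height x ∧ (height x : ℝ) ≤ B}

open Pool.Agent.K1H71.NX (LB Adm)
open Pool.Agent.K1H71.NX.Main (count)
open Pool.Agent.K1H71.NX.Main3 (gen equal theta both)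

theorem le_height {n : ℕ} (x : Fin n → ℤ) (i : Fin n) : |(x i : ℝ)| ≤ height x := by
  have h : (x i).natAbs ≤ height x := le_sup (f := fun i => (x i).natAbs) (mem_univ i)
  rw [← Int.cast_abs, ← Nat.cast_natAbs]
  exact_mod_cast h

theorem height_le {n : ℕ} {x : Fin n → ℤ} {B : ℝ} (hB : 0 ≤ B) (h : ∀ i, |(x i : ℝ)| ≤ B) :
    (height x : ℝ) ≤ B := by
  have h1 : height x ≤ ⌊B⌋₊ := Finset.sup_le fun i _ => Nat.le_floor (by
    have := h i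
    rw [← Int.cast_abs, ← Nat.cast_natAbs] at this
    exact_mod_cast this)
  exact (Nat.cast_le.2 h1).trans (Nat.floor_le hB)

theorem finite_box (n : ℕ) (B : ℝ) : {x : Fin n → ℤ | (height x : ℝ) ≤ B}.Finite := by
  refine Set.Finite.subset (Finset.finite_toSet
    (Fintype.piFinset fun _ : Fin n => Icc (-(⌊B⌋₊ : ℤ)) ⌊B⌋₊)) ?_
  intro x hx
  have hx' : (height x : ℝ) ≤ B := hx
  rw [mem_coe, Fintype.mem_piFinset]
  intro j
  have h3 : (x j).natAbs ≤ ⌊B⌋₊ := by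
    have h4 : (x j).natAbs ≤ height x := le_sup (f := fun i => (x i).natAbs) (mem_univ j)
    exact h4.trans (Nat.le_floor hx')
  rw [mem_Icc]
  omega

theorem card_le {n : ℕ} {S : Set (Fin n → ℤ)} {B : ℝ} (hS : ∀ x ∈ S, (height x : ℝ) ≤ B)
    {T : Finset (Fin n → ℤ)} (hT : ∀ x ∈ T, x ∈ S) : (T.card : ℝ) ≤ (S.ncard : ℝ) := by
  have hfin : S.Finite := (finite_box n B).subset hS
  have h := Set.ncard_le_ncard (s := (T : Set (Fin n → ℤ))) (t := S) (fun x hx => hT x hx) hfin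
  rw [Set.ncard_coe_finset] at h
  exact_mod_cast h

theorem byRadical_card {n : ℕ} {M K X : ℝ} (hX : 0 ≤ X) {T : Finset (Fin n → ℤ)}
    (hT : ∀ x ∈ T, Pool.Agent.K1H71.NX.Good M K X (X ^ ((2 * n : ℕ) : ℝ)) x) :
    (T.card : ℝ) ≤ ((ByRadical n M K X).ncard : ℝ) := by
  refine card_le (B := X ^ (2 * n)) (fun x hx => hx.2.2.2) fun x hx => ?_
  obtain ⟨h1, h2, ⟨i, hi⟩, h4⟩ := hT x hx
  refine ⟨h1, h2, lt_of_lt_of_le hi (le_height x i), height_le (by positivity) fun j => ?_⟩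
  rw [← Real.rpow_natCast]
  exact h4 j

theorem byHeight_card {n : ℕ} {M K B : ℝ} (hB : 0 ≤ B) {T : Finset (Fin n → ℤ)}
    (hT : ∀ x ∈ T, Adm x ∧ (∃ i, K * (Pool.Agent.K1H71.NX.rad (∏ i, x i) : ℝ) ^ M < |(x i : ℝ)|) ∧
      ∀ i, |(x i : ℝ)| ≤ B) : (T.card : ℝ) ≤ ((ByHeight n M K B).ncard : ℝ) := by
  refine card_le (B := B) (fun x hx => hx.2.2) fun x hx => ?_
  obtain ⟨k1, ⟨i, hi⟩, k3⟩ := hT x hx
  exact ⟨k1, lt_of_lt_of_le hi (le_height x i), height_le hB k3⟩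

theorem fin {n : ℕ} {M A E : ℝ} (h : ∀ δ : ℝ, 0 < δ → LB n M A (E - δ)) (hA : 0 < A)
    (hA' : A < 2 * n) {K : ℝ} (hK : 0 < K) {δ : ℝ} (hδ : 0 < δ) : ∃ X₀ : ℝ, ∀ X : ℝ, X₀ ≤ X →
      X ^ (E - δ) ≤ ((ByRadical n M K X).ncard : ℝ) ∧
      X ^ (E / A - δ) ≤ ((ByHeight n M K X).ncard : ℝ) := by
  obtain ⟨X₀, hX₀⟩ := both h hA (A' := ((2 * n : ℕ) : ℝ)) (by push_cast; exact hA') hK hδ
  refine ⟨X₀, fun X hX => ?_⟩
  obtain ⟨g0, ⟨T, hT1, hT2⟩, S, hS1, hS2⟩ := hX₀ X hX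
  exact ⟨hT2.trans (byRadical_card g0.le hT1), hS2.trans (byHeight_card g0.le hS1)⟩

/-- **The number of exceptions has exponent at least `1 - O(1 / n)`.** Let `K > 0` and `δ > 0`, and let
`X` be large. (1) If `m ≥ 1`, `N ≥ 3`, `m (N - 2) + 2 ≤ n` and `0 ≤ M < m`, then at least
`X ^ (min (1 - 1 / N) (1 - M / m) - δ)` admissible `n`-tuples with radical at most `X` satisfy
`K rad ^ M < max |x_i| ≤ X ^ (2 n)`. (2) Let `h ≥ 1`, `r + h + 2 ≤ n`, `1 / (h + 3) ≤ α < 1 / 2` and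
`0 ≤ M ≤ (2 r + 1) α`, and `E = 1 - α - (1 - 2 α) / (h + 1)`. At least `X ^ (E - δ)` admissible
`n`-tuples with radical at most `X` satisfy `K rad ^ M < max |x_i| ≤ X ^ (2 n)`, and at least
`X ^ (E / ((2 r + 1) α) - δ)` satisfy `K rad ^ M < max |x_i| ≤ X`. (3) For `θ ≥ 1`,
`(1 + θ) ^ 2 ≤ n` and `0 ≤ M ≤ 2 θ ^ 2` the first number is at least
`X ^ (1 - (1 + θ) ^ 2 / n - δ)`. (4) For integers `q ≥ 4` and `0 ≤ M` with `(M + 2) q ≤ 2 n + 3` the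
numbers are at least `X ^ (1 - 2 / q - δ)` and `X ^ ((q - 2) / (M q + 2) - δ)`. -/
theorem result :
    (∀ n m N : ℕ, 1 ≤ m → 3 ≤ N → m * (N - 2) + 2 ≤ n → ∀ M : ℝ, 0 ≤ M → M < m →
      ∀ K : ℝ, 0 < K → ∀ δ : ℝ, 0 < δ → ∃ X₀ : ℝ, ∀ X : ℝ, X₀ ≤ X →
        X ^ (min (1 - 1 / (N : ℝ)) (1 - M / m) - δ) ≤ ((ByRadical n M K X).ncard : ℝ)) ∧
    (∀ n r h : ℕ, 1 ≤ h → r + h + 2 ≤ n → ∀ α : ℝ, 1 / ((h : ℝ) + 3) ≤ α → α < 1 / 2 →
      ∀ M : ℝ, 0 ≤ M → M ≤ (2 * r + 1) * α → ∀ K : ℝ, 0 < K → ∀ δ : ℝ, 0 < δ →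
        ∃ X₀ : ℝ, ∀ X : ℝ, X₀ ≤ X →
          X ^ (1 - α - (1 - 2 * α) / (h + 1) - δ) ≤ ((ByRadical n M K X).ncard : ℝ) ∧
          X ^ ((1 - α - (1 - 2 * α) / (h + 1)) / ((2 * r + 1) * α) - δ) ≤
            ((ByHeight n M K X).ncard : ℝ)) ∧
    (∀ n : ℕ, ∀ θ : ℝ, 1 ≤ θ → (1 + θ) ^ 2 ≤ n → ∀ M : ℝ, 0 ≤ M → M ≤ 2 * θ ^ 2 →
      ∀ K : ℝ, 0 < K → ∀ δ : ℝ, 0 < δ → ∃ X₀ : ℝ, ∀ X : ℝ, X₀ ≤ X →
        X ^ (1 - (1 + θ) ^ 2 / n - δ) ≤ ((ByRadical n M K X).ncard : ℝ)) ∧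
    (∀ n q : ℕ, 4 ≤ q → ∀ M : ℝ, 0 ≤ M → (M + 2) * q ≤ 2 * n + 3 →
      ∀ K : ℝ, 0 < K → ∀ δ : ℝ, 0 < δ → ∃ X₀ : ℝ, ∀ X : ℝ, X₀ ≤ X →
        X ^ (1 - 2 / (q : ℝ) - δ) ≤ ((ByRadical n M K X).ncard : ℝ) ∧
        X ^ (((q : ℝ) - 2) / (M * q + 2) - δ) ≤ ((ByHeight n M K X).ncard : ℝ)) := by
  have hmono := Pool.Agent.K1H71.NX.t_MONO
  have hpos := Pool.Agent.K1H68.NX3.t_POS4
  have hB := Pool.Agent.K1H71.NX.t_BB Pool.Agent.K1H71.NX.t_WAR Pool.Agent.K1H71.NX.t_NVS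
  refine ⟨?_, ?_, ?_, ?_⟩
  · intro n m N hm hN hn M hM hMm K hK δ hδ
    have h1 := Pool.Agent.K1H71.NX.Main2.two hmono Pool.Agent.K1H37.NX2.t_POS3 hB hN hm hn hM hMm
      (half_pos hδ)
    have hmn : m < n := by
      have : m * 1 ≤ m * (N - 2) := Nat.mul_le_mul_left m (by omega)
      omega
    obtain ⟨X₀, hX₀⟩ := count h1 (A' := ((2 * n : ℕ) : ℝ))
      (e' := min (1 - 1 / (N : ℝ)) (1 - M / m) - δ) (by
        push_cast
        have : (m : ℝ) < n := by exact_mod_cast hmn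
        linarith) (by linarith) hK
    refine ⟨max X₀ 0, fun X hX => ?_⟩
    obtain ⟨T, hT1, hT2⟩ := hX₀ X ((le_max_left _ _).trans hX)
    exact hT2.trans (byRadical_card ((le_max_right _ _).trans hX) hT1)
  · intro n r h hh hn α hα1 hα2 M hM hMr K hK δ hδ
    have hα0 : 0 < α := lt_of_lt_of_le (by positivity) hα1
    have hr0 : (0 : ℝ) ≤ r := Nat.cast_nonneg r
    have hnr : (r : ℝ) + h + 2 ≤ n := by exact_mod_cast hn
    have hh0 : (0 : ℝ) ≤ h := Nat.cast_nonneg h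
    refine fin (fun δ' hδ' => gen hmono hpos hh hn hα1 hα2 hMr hδ') (by positivity) ?_ hK hδ
    have : (2 * (r : ℝ) + 1) * α ≤ (2 * (r : ℝ) + 1) * 1 :=
      mul_le_mul_of_nonneg_left (by linarith) (by positivity)
    linarith
  · intro n θ hθ hn M hM hMθ K hK δ hδ
    have hn4 : (4 : ℝ) ≤ n := by nlinarith
    obtain ⟨X₀, hX₀⟩ := fin (E := 1 - (1 + θ) ^ 2 / n)
      (fun δ' hδ' => theta hmono hpos hB hθ hM hMθ hn hδ') (by linarith) (by linarith) hK hδ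
    exact ⟨X₀, fun X hX => (hX₀ X hX).1⟩
  · intro n q hq M hM hnq K hK δ hδ
    have hq4 : (4 : ℝ) ≤ q := by exact_mod_cast hq
    have hq0 : (0 : ℝ) < q := by linarith
    have e1 : (1 - 2 / (q : ℝ)) / (M + 2 / q) = ((q : ℝ) - 2) / (M * q + 2) := by
      have h1 : M + 2 / (q : ℝ) = (M * q + 2) / q := by field_simp
      have h2 : 1 - 2 / (q : ℝ) = (q - 2) / q := by field_simp
      rw [h1, h2, div_div_div_cancel_right₀ hq0.ne']
    rw [← e1]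
    refine fin (fun δ' hδ' => equal hmono hpos hq hM hnq hδ') (by positivity) ?_ hK hδ
    have h3 : 2 / (q : ℝ) ≤ 1 / 2 := by
      rw [div_le_div_iff₀ hq0 (by norm_num)]
      linarith
    have h4 : (M + 2) * 4 ≤ (M + 2) * q := mul_le_mul_of_nonneg_left hq4 (by linarith)
    linarith

end Pool.Agent.Results.MP_a95293_nt.SavingOneOverN
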